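import Pool.Agent.Helper832_EG.DS9

/-!
# Pseudo-nullity for almost all tuples of tamely ramified primes
-/

namespace Pool.Agent.Results.MP_0c0f13_nt.AlmostAllTuples

open NumberField Filter Topology IsDedekindDomain
open Pool.Agent.Helper832_EG Pool.Agent.W569.FM Pool.Agent.R417.FK

/-- Let `k` be a totally complex number field with one prime above `p` and class number prime to `p`,
and let `M` be a `ℤ_p ^ r`-extension of `k`, `r ≥ 2`, containing the cyclotomic `ℤ_p`-extension (for
example the composite of all `ℤ_p`-extensions). For almost all tuples `v` of `t` primes of `k`, the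
unramified Iwasawa module of `K` is pseudo-null for all `K = F M` which are abelian over `k` and
ramified outside `p` at most at the primes of `v`, where `F` has degree a power of `p` over `k` and
`F ∩ M = k`: among the tuples of primes of norm at most `X`, the proportion of the tuples with this
property tends to one as `X` tends to infinity. -/
theorem result (p : ℕ) [Fact p.Prime] (k : Type) [Field k] [NumberField k] [IsTotallyComplex k]
    (hone : OnePrime k p) (hcl : ¬ p ∣ classNumber k)
    (r : ℕ) (hr : 2 ≤ r) (M : IntermediateField k (AlgebraicClosure k)) (hM : CycIn p M)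
    (φ : GF k → Fin r → ℤ_[p]) (hφ : Coord M φ) (t : ℕ) :
    Tendsto (fun X : ℕ => (cnt k (AllNull p M φ (t := t)) X : ℝ) /
      (cnt k (fun _ : Fin t → HeightOneSpectrum (𝓞 k) => True) X : ℝ)) atTop (𝓝 1) :=
  tuples_main hone hcl hr hM hφ t

end Pool.Agent.Results.MP_0c0f13_nt.AlmostAllTuples
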