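import Pool.Agent.Helper832_EG.Main3

/-!
# Pseudo-nullity when the tamely ramified primes have primitive, pairwise independent Frobenius elements
-/

namespace Pool.Agent.Results.MP_0c0f13_nt.PrimitiveFrobenius

open NumberField Pool.Agent.Helper832_EG Pool.Agent.W569.FM Pool.Agent.R417.FK

/-- Let `k` be a totally complex number field containing the `p`-th roots of unity, with one prime
above `p` and class number prime to `p`. Let `M` be a `ℤ_p ^ r`-extension of `k`, `r ≥ 2`, containing
the cyclotomic `ℤ_p`-extension (for example the composite of all `ℤ_p`-extensions), and let `K = F M`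
be abelian over `k`, where `F` has degree a power of `p` over `k` and `F ∩ M = k`. Suppose that the
Frobenius elements in `Gal(M/k)` of the primes not above `p` which are ramified in `K` are primitive
vectors, and are pairwise linearly independent. Then the unramified Iwasawa module of `K` is
pseudo-null. -/
theorem result (p : ℕ) [Fact p.Prime] (k : Type) [Field k] [NumberField k] [IsTotallyComplex k]
    (ζ : k) (hζ : IsPrimitiveRoot ζ p) (hone : OnePrime k p) (hcl : ¬ p ∣ classNumber k)
    (r : ℕ) (hr : 2 ≤ r) (M : IntermediateField k (AlgebraicClosure k)) (hM : CycIn p M)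
    (φ : GF k → Fin r → ℤ_[p]) (hφ : Coord M φ)
    (K F : IntermediateField k (AlgebraicClosure k)) (hK : Ext p M K F)
    (hprim : ∀ P : Ideal (OO k), P.IsMaximal → (p : OO k) ∉ P → ¬ inertia P ≤ K.fixingSubgroup →
      ∀ σ : GF k, FrobAt (nm P) P σ → ∃ i, IsUnit (φ σ i))
    (hind : Indep K φ) :
    (∃ m : Module (Iwa p r) (Xur p K), IsNat K F φ m) ∧
    ∀ m : Module (Iwa p r) (Xur p K), IsNat K F φ m → PseudoNull m :=
  ⟨exists_isNat hone (noUr_of_class hcl) hφ hK,
    fun m hm => prim_nat hζ hone hcl hr hM hφ hK hind hprim m hm⟩

end Pool.Agent.Results.MP_0c0f13_nt.PrimitiveFrobenius
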