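import Pool.Agent.Helper832_EG.Main2

/-!
# The support of unramified Iwasawa modules over tamely ramified extensions of `ℤ_p ^ r`-extensions
-/

namespace Pool.Agent.Results.MP_0c0f13_nt.SupportTame

open NumberField Pool.Agent.Helper832_EG Pool.Agent.W569.FM Pool.Agent.R417.FK

/-- Let `k` be a number field with one prime above `p` and no cyclic extension of degree `p`
unramified at all finite primes. Let `M` be a `ℤ_p ^ r`-extension of `k`, `r ≥ 2`, containing the
cyclotomic `ℤ_p`-extension (for example the composite of all `ℤ_p`-extensions), and let `K = F M` be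
abelian over `k`, where `F` has degree a power of `p` over `k` and `F ∩ M = k`. The unramified Iwasawa
module of `K` carries its natural structure of a module over the Iwasawa algebra, and every prime of
height one in its support lies in the radical of the ideal generated by `p` and `γ - 1`, with `γ` a
Frobenius element at some prime not above `p` which is ramified in `K`. -/
theorem result (p : ℕ) [Fact p.Prime] (k : Type) [Field k] [NumberField k]
    (hone : OnePrime k p) (hur : NoUr k p) (r : ℕ) (hr : 2 ≤ r)
    (M : IntermediateField k (AlgebraicClosure k)) (hM : CycIn p M)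
    (φ : GF k → Fin r → ℤ_[p]) (hφ : Coord M φ)
    (K F : IntermediateField k (AlgebraicClosure k)) (hK : Ext p M K F) :
    (∃ m : Module (Iwa p r) (Xur p K), IsNat K F φ m) ∧
    ∀ m : Module (Iwa p r) (Xur p K), IsNat K F φ m →
      ∀ Q : Ideal (Iwa p r), ∀ _ : Q.IsPrime, Q.height = 1 → InSupp m Q →
        ∃ P : Ideal (OO k), P.IsMaximal ∧ (p : OO k) ∉ P ∧ ¬ inertia P ≤ K.fixingSubgroup ∧
          ∃ σ : GF k, FrobAt (nm P) P σ ∧ Q ≤ (Ideal.span {(p : Iwa p r), gel (φ σ) - 1}).radical :=
  ⟨exists_isNat hone hur hφ hK, fun m hm Q _ hh hs => support_nat hone hur hr hM hφ hK m hm Q hh hs⟩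

end Pool.Agent.Results.MP_0c0f13_nt.SupportTame
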